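import Pool.Agent.W7.FH.N2

/-!
# Fermat's equation at several primes of norm two
-/

set_option autoImplicit false

namespace Pool.Agent.Y546.FLT

open NumberField IsDedekindDomain Height Pool.Agent.W7.FH

variable {K : Type} [Field K] [NumberField K]

/-- powers of a unit minus one -/
theorem pow_sub_one_lt (v : FinitePlace K) (h2 : nrm v = 2) {x : K} (hx : v x = 1) (k : ℕ) :
    v (x ^ k - 1) < 1 :=
  sub_one_lt v h2 (by rw [map_pow, hx, one_pow])

theorem two_lt (v : FinitePlace K) (h2 : nrm v = 2) : v (2 : K) < 1 := by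
  have h11 : ((2 : ℕ) : 𝓞 K) ∈ v.maximalIdeal.asIdeal := by
    have := Ideal.absNorm_mem v.maximalIdeal.asIdeal
    change ((nrm v : ℕ) : 𝓞 K) ∈ _ at this
    rwa [h2] at this
  rw [mem_iff_lt_one] at h11
  have e : (((2 : ℕ) : 𝓞 K) : K) = 2 := by push_cast; rfl
  rwa [e] at h11

theorem odd_eq_one (v : FinitePlace K) (h2 : nrm v = 2) {n : ℕ} (hn : Odd n) :
    v (n : K) = 1 := by
  obtain ⟨k, rfl⟩ := hn
  have h3 : v (((2 * k : ℕ) : K)) < v (1 : K) := by
    push_cast
    rw [map_mul, map_one]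
    calc v (2 : K) * v (k : K) ≤ v (2 : K) * 1 :=
          mul_le_mul_of_nonneg_left (natCast_le_one v k) (apply_nonneg _ _)
      _ < 1 := by rw [mul_one]; exact two_lt v h2
  have h4 := add_eq_of_lt v h3
  rw [map_one] at h4
  rw [← h4]
  congr 1
  push_cast
  ring

/-- a unit whose odd power is close to one is close to one -/
theorem root_close (v : FinitePlace K) (h2 : nrm v = 2) {n : ℕ} (hn : Odd n) {u : K}
    (hu : v u = 1) : v (u - 1) = v (u ^ n - 1) := by
  have h1 : u ^ n - 1 = (∑ i ∈ Finset.range n, u ^ i) * (u - 1) := (geom_sum_mul u n).symm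
  have h3 : v (∑ i ∈ Finset.range n, (u ^ i - 1)) < 1 :=
    sum_lt v one_pos _ _ fun i _ => pow_sub_one_lt v h2 hu i
  have h4 : (∑ i ∈ Finset.range n, u ^ i) = (n : K) + ∑ i ∈ Finset.range n, (u ^ i - 1) := by
    rw [Finset.sum_sub_distrib]
    simp
  have h5 : v (∑ i ∈ Finset.range n, u ^ i) = 1 := by
    rw [h4, add_eq_of_lt v (by rw [odd_eq_one v h2 hn]; exact h3), odd_eq_one v h2 hn]
  rw [h1, map_mul, h5, one_mul]

/-- one variable is small -/
theorem small_of_lt (v : FinitePlace K) (h2 : nrm v = 2) {n : ℕ} (hn : Odd n) {a b c : K}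
    (hb : b ≠ 0) (h : a ^ n + b ^ n + c ^ n = 0) (hc : v c < mx v a b c) :
    (2 : ℝ) ^ n * v (a + b) ≤ mx v a b c := by
  have hn0 : n ≠ 0 := hn.pos.ne'
  obtain ⟨M, hM⟩ : ∃ M, M = mx v a b c := ⟨_, rfl⟩
  rw [← hM] at hc ⊢
  have hM0 : 0 < M := lt_of_le_of_lt (apply_nonneg _ _) hc
  have hab : M = max (v a) (v b) := by
    rw [hM]
    unfold mx
    rw [hM] at hc
    unfold mx at hc
    rcases max_choice (max (v a) (v b)) (v c) with h1 | h1
    · exact h1
    · rw [h1] at hc
      exact absurd hc (lt_irrefl _)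
  have haM : v a ≤ M := by rw [hab]; exact le_max_left _ _
  have hbM : v b ≤ M := by rw [hab]; exact le_max_right _ _
  have hac : v (a ^ n) = v (b ^ n + c ^ n) := by
    have e : a ^ n = -(b ^ n + c ^ n) := by linear_combination h
    rw [e, map_neg_eq_map]
  have hbc : v (b ^ n) = v (a ^ n + c ^ n) := by
    have e : b ^ n = -(a ^ n + c ^ n) := by linear_combination h
    rw [e, map_neg_eq_map]
  have hcM : v (c ^ n) < M ^ n := by
    rw [map_pow]
    exact pow_lt_pow_left₀ hc (apply_nonneg _ _) hn0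
  have hb' : v b = M := by
    by_contra hne
    have hlt : v b < M := lt_of_le_of_ne hbM hne
    have h3 : v (b ^ n) < M ^ n := by
      rw [map_pow]
      exact pow_lt_pow_left₀ hlt (apply_nonneg _ _) hn0
    have h4 : v (a ^ n) < M ^ n := by
      rw [hac]
      exact lt_of_le_of_lt (FinitePlace.add_le v _ _) (max_lt h3 hcM)
    have h5 : v a = M := by
      rw [hab]
      rcases max_choice (v a) (v b) with h6 | h6
      · exact h6.symm
      · rw [h6] at hab
        exact absurd hab.symm hne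
    rw [map_pow, h5] at h4
    exact lt_irrefl _ h4
  have ha' : v a = M := by
    by_contra hne
    have hlt : v a < M := lt_of_le_of_ne haM hne
    have h3 : v (a ^ n) < M ^ n := by
      rw [map_pow]
      exact pow_lt_pow_left₀ hlt (apply_nonneg _ _) hn0
    have h4 : v (b ^ n) < M ^ n := by
      rw [hbc]
      exact lt_of_le_of_lt (FinitePlace.add_le v _ _) (max_lt h3 hcM)
    rw [map_pow, hb'] at h4
    exact lt_irrefl _ h4
  have hu : v (-(a / b)) = 1 := by
    rw [map_neg_eq_map, map_div₀, ha', hb', div_self hM0.ne']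
  have hpow : (-(a / b)) ^ n - 1 = (c / b) ^ n := by
    rw [hn.neg_pow, div_pow, div_pow]
    field_simp
    linear_combination -h
  have hcb : v (c / b) ≤ 2⁻¹ := by
    have h3 := le_inv_nrm v (t := c / b) (by
      rw [map_div₀, hb', div_lt_one hM0]
      exact hc)
    rw [h2] at h3
    exact_mod_cast h3
  have h5 : v (-(a / b) - 1) ≤ (2⁻¹ : ℝ) ^ n := by
    rw [root_close v h2 hn hu, hpow, map_pow]
    exact pow_le_pow_left₀ (apply_nonneg _ _) hcb n
  have h6 : a + b = -((-(a / b) - 1) * b) := by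
    field_simp
    ring
  rw [h6, map_neg_eq_map, map_mul, hb']
  calc (2 : ℝ) ^ n * (v (-(a / b) - 1) * M) ≤ 2 ^ n * ((2⁻¹ : ℝ) ^ n * M) := by gcongr
    _ = M := by
        rw [← mul_assoc, ← mul_pow]
        norm_num

/-- **Local statement.** At a place of norm two one of the three sums is very small. -/
theorem local_two (v : FinitePlace K) (h2 : nrm v = 2) {n : ℕ} (hn : Odd n) {a b c : K}
    (ha : a ≠ 0) (hb : b ≠ 0) (hc : c ≠ 0) (h : a ^ n + b ^ n + c ^ n = 0) :
    (2 : ℝ) ^ n * v (a + b) ≤ mx v a b c ∨ (2 : ℝ) ^ n * v (b + c) ≤ mx v a b c ∨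
      (2 : ℝ) ^ n * v (c + a) ≤ mx v a b c := by
  by_cases h3 : v c < mx v a b c
  · exact Or.inl (small_of_lt v h2 hn hb h h3)
  by_cases h4 : v a < mx v a b c
  · right; left
    rw [← mx_rot]
    exact small_of_lt v h2 hn hc (by linear_combination h) (by rw [mx_rot]; exact h4)
  by_cases h5 : v b < mx v a b c
  · right; right
    rw [← mx_rot, ← mx_rot]
    exact small_of_lt v h2 hn ha (by linear_combination h) (by rw [mx_rot, mx_rot]; exact h5)
  exfalso
  have hcM : v c = mx v a b c := le_antisymm (le_max_right _ _) (not_lt.1 h3)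
  have haM : v a = mx v a b c :=
    le_antisymm ((le_max_left _ _).trans (le_max_left _ _)) (not_lt.1 h4)
  have hbM : v b = mx v a b c :=
    le_antisymm ((le_max_right _ _).trans (le_max_left _ _)) (not_lt.1 h5)
  have hM0 : 0 < mx v a b c := by
    rw [← haM]
    exact FinitePlace.pos_iff.mpr ha
  have e1 : v (a / c) = 1 := by rw [map_div₀, haM, hcM, div_self hM0.ne']
  have e2 : v (b / c) = 1 := by rw [map_div₀, hbM, hcM, div_self hM0.ne']
  have f1 := pow_sub_one_lt v h2 e1 n
  have f2 := pow_sub_one_lt v h2 e2 n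
  have e3 : (-3 : K) = ((a / c) ^ n - 1) + ((b / c) ^ n - 1) := by
    have : (a / c) ^ n + (b / c) ^ n + 1 = 0 := by
      rw [div_pow, div_pow]
      field_simp
      linear_combination h
    linear_combination -this
  have e4 : v (-3 : K) < 1 := by
    rw [e3]
    exact lt_of_le_of_lt (FinitePlace.add_le v _ _) (max_lt f1 f2)
  have e5 : v ((3 : ℕ) : K) = 1 := odd_eq_one v h2 (by decide)
  rw [map_neg_eq_map] at e4
  push_cast at e5
  rw [e5] at e4
  exact lt_irrefl _ e4

/-- product formula with several places -/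
theorem height_ge_many {a b c : K} (ha : a ≠ 0) (hb : b ≠ 0) (hc : c ≠ 0) (hab : a + b ≠ 0)
    (T : Finset (FinitePlace K)) {Q : ℝ} (hQ : 0 ≤ Q)
    (h : ∀ v ∈ T, Q * v (a + b) ≤ mx v a b c) :
    Q ^ T.card ≤ 2 ^ Module.finrank ℚ K * mulHeight ![a, b, c] := by
  classical
  have hx : ![a, b, c] ≠ 0 := fun h0 => ha (congrFun h0 0)
  have hall : ∀ i : Fin 3, ![a, b, c] i ≠ 0 := by
    intro i
    fin_cases i
    · exact ha
    · exact hb
    · exact hc
  have h1 := NumberField.mulHeight_eq (K := K) hx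
  have hfM : (fun v : FinitePlace K => ⨆ i : Fin 3, v (![a, b, c] i)).HasFiniteMulSupport :=
    .iSup fun i => FinitePlace.hasFiniteMulSupport (hall i)
  have hfx : (fun v : FinitePlace K => v (a + b)).HasFiniteMulSupport :=
    FinitePlace.hasFiniteMulSupport hab
  set S : Finset (FinitePlace K) := T ∪ (hfM.toFinset ∪ hfx.toFinset) with hS
  have e1 : ∏ᶠ v : FinitePlace K, ⨆ i : Fin 3, v (![a, b, c] i) =
      ∏ v ∈ S, ⨆ i : Fin 3, v (![a, b, c] i) := by
    apply finprod_eq_prod_of_mulSupport_subset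
    intro w hw
    rw [hS, Finset.coe_union, Finset.coe_union]
    right; left
    exact Finset.mem_coe.mpr ((Set.Finite.mem_toFinset hfM).mpr hw)
  have e2 : ∏ᶠ v : FinitePlace K, v (a + b) = ∏ v ∈ S, v (a + b) := by
    apply finprod_eq_prod_of_mulSupport_subset
    intro w hw
    rw [hS, Finset.coe_union, Finset.coe_union]
    right; right
    exact Finset.mem_coe.mpr ((Set.Finite.mem_toFinset hfx).mpr hw)
  have hpf := prod_abs_eq_one hab
  rw [e2] at hpf
  rw [h1, e1]
  have hfin : Q ^ T.card * ∏ v ∈ S, v (a + b) ≤ ∏ v ∈ S, ⨆ i : Fin 3, v (![a, b, c] i) := by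
    have hTS : T ⊆ S := Finset.subset_union_left
    have e3 : Q ^ T.card * ∏ v ∈ S, v (a + b) =
        ∏ v ∈ S, ((if v ∈ T then Q else 1) * v (a + b)) := by
      rw [Finset.prod_mul_distrib, Finset.prod_ite_mem, Finset.inter_eq_right.2 hTS,
        Finset.prod_const]
    rw [e3]
    apply Finset.prod_le_prod
    · intro v _
      refine mul_nonneg ?_ (apply_nonneg _ _)
      split_ifs
      · exact hQ
      · exact zero_le_one
    · intro v _
      rw [iSup_three v a b c]
      by_cases hv : v ∈ T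
      · rw [if_pos hv]
        exact h v hv
      · rw [if_neg hv, one_mul]
        exact (FinitePlace.add_le v a b).trans (le_max_left _ _)
  have hinf : ∏ w : InfinitePlace K, w (a + b) ^ w.mult ≤
      2 ^ Module.finrank ℚ K * ∏ w : InfinitePlace K, (⨆ i : Fin 3, w (![a, b, c] i)) ^ w.mult := by
    have h2 : (2 : ℝ) ^ Module.finrank ℚ K = ∏ w : InfinitePlace K, (2 : ℝ) ^ w.mult := by
      rw [Finset.prod_pow_eq_pow_sum, InfinitePlace.sum_mult_eq]
    rw [h2, ← Finset.prod_mul_distrib]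
    apply Finset.prod_le_prod (fun w _ => pow_nonneg (apply_nonneg _ _) _)
    intro w _
    rw [← mul_pow]
    apply pow_le_pow_left₀ (apply_nonneg _ _)
    rw [iSup_three w a b c]
    have h3 : w (a + b) ≤ w a + w b := w.1.add_le a b
    have h4 : w a ≤ max (max (w a) (w b)) (w c) := le_max_of_le_left (le_max_left _ _)
    have h5 : w b ≤ max (max (w a) (w b)) (w c) := le_max_of_le_left (le_max_right _ _)
    linarith
  have hP0 : 0 ≤ ∏ v ∈ S, v (a + b) := Finset.prod_nonneg fun v _ => apply_nonneg _ _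
  have hI0 : 0 ≤ ∏ w : InfinitePlace K, w (a + b) ^ w.mult :=
    Finset.prod_nonneg fun w _ => pow_nonneg (apply_nonneg _ _) _
  calc Q ^ T.card
      = (∏ w : InfinitePlace K, w (a + b) ^ w.mult) * (Q ^ T.card * ∏ v ∈ S, v (a + b)) := by
        rw [mul_left_comm, hpf, mul_one]
    _ ≤ (2 ^ Module.finrank ℚ K * ∏ w : InfinitePlace K, (⨆ i : Fin 3, w (![a, b, c] i)) ^ w.mult) *
          ∏ v ∈ S, ⨆ i : Fin 3, v (![a, b, c] i) :=
        mul_le_mul hinf hfin (by positivity) (hI0.trans hinf)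
    _ = _ := by ring

/-- **Main theorem.** -/
theorem main (S : Finset (HeightOneSpectrum (𝓞 K)))
    (hS : ∀ P ∈ S, Ideal.absNorm P.asIdeal = 2) {n : ℕ} (hn : Odd n) {a b c : K}
    (ha : a ≠ 0) (hb : b ≠ 0) (hc : c ≠ 0) (h : a ^ n + b ^ n + c ^ n = 0) :
    ∃ k : ℕ, S.card ≤ 3 * k ∧
      (2 : ℝ) ^ (n * k) ≤ 2 ^ Module.finrank ℚ K * mulHeight ![a, b, c] := by
  classical
  have hnrm : ∀ P ∈ S, nrm (FinitePlace.mk P) = 2 := by
    intro P hP
    rw [nrm, FinitePlace.maximalIdeal_mk]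
    exact hS P hP
  have hinj : Function.Injective (FinitePlace.mk : HeightOneSpectrum (𝓞 K) → FinitePlace K) := by
    intro P Q hPQ
    have := congrArg FinitePlace.maximalIdeal hPQ
    rwa [FinitePlace.maximalIdeal_mk, FinitePlace.maximalIdeal_mk] at this
  obtain ⟨T, hT⟩ : ∃ T : Finset (FinitePlace K), T = S.image FinitePlace.mk := ⟨_, rfl⟩
  have hTc : T.card = S.card := by
    rw [hT]
    exact Finset.card_image_of_injective _ hinj
  have hT2 : ∀ v ∈ T, nrm v = 2 := by
    intro v hv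
    rw [hT, Finset.mem_image] at hv
    obtain ⟨P, hP, rfl⟩ := hv
    exact hnrm P hP
  obtain ⟨T1, hT1⟩ : ∃ T1, T1 = T.filter (fun v => (2 : ℝ) ^ n * v (a + b) ≤ mx v a b c) :=
    ⟨_, rfl⟩
  obtain ⟨T2, hT2'⟩ : ∃ T2, T2 = T.filter (fun v => (2 : ℝ) ^ n * v (b + c) ≤ mx v a b c) :=
    ⟨_, rfl⟩
  obtain ⟨T3, hT3⟩ : ∃ T3, T3 = T.filter (fun v => (2 : ℝ) ^ n * v (c + a) ≤ mx v a b c) :=
    ⟨_, rfl⟩
  have hcov : T ⊆ (T1 ∪ T2) ∪ T3 := by
    intro v hv
    rw [Finset.mem_union, Finset.mem_union, hT1, hT2', hT3, Finset.mem_filter, Finset.mem_filter,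
      Finset.mem_filter]
    rcases local_two v (hT2 v hv) hn ha hb hc h with h1 | h1 | h1
    · exact Or.inl (Or.inl ⟨hv, h1⟩)
    · exact Or.inl (Or.inr ⟨hv, h1⟩)
    · exact Or.inr ⟨hv, h1⟩
  have hcard : T.card ≤ T1.card + T2.card + T3.card :=
    (Finset.card_le_card hcov).trans ((Finset.card_union_le _ _).trans
      (Nat.add_le_add_right (Finset.card_union_le _ _) _))
  have hQ : (0 : ℝ) ≤ 2 ^ n := by positivity
  have b1 : (2 : ℝ) ^ (n * T1.card) ≤ 2 ^ Module.finrank ℚ K * mulHeight ![a, b, c] := by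
    rw [pow_mul]
    refine height_ge_many ha hb hc (add_ne_zero_of_fermat hn hc h) T1 hQ ?_
    intro v hv
    rw [hT1] at hv
    exact (Finset.mem_filter.1 hv).2
  have b2 : (2 : ℝ) ^ (n * T2.card) ≤ 2 ^ Module.finrank ℚ K * mulHeight ![a, b, c] := by
    rw [pow_mul, ← mulHeight_rot]
    refine height_ge_many hb hc ha (add_ne_zero_of_fermat hn ha (by linear_combination h)) T2 hQ ?_
    intro v hv
    rw [hT2'] at hv
    rw [mx_rot]
    exact (Finset.mem_filter.1 hv).2
  have b3 : (2 : ℝ) ^ (n * T3.card) ≤ 2 ^ Module.finrank ℚ K * mulHeight ![a, b, c] := by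
    rw [pow_mul, ← mulHeight_rot, ← mulHeight_rot]
    refine height_ge_many hc ha hb (add_ne_zero_of_fermat hn hb (by linear_combination h)) T3 hQ ?_
    intro v hv
    rw [hT3] at hv
    rw [mx_rot, mx_rot]
    exact (Finset.mem_filter.1 hv).2
  rcases le_total T1.card T2.card with h1 | h1
  · rcases le_total T2.card T3.card with h2 | h2
    · exact ⟨T3.card, by omega, b3⟩
    · exact ⟨T2.card, by omega, b2⟩
  · rcases le_total T1.card T3.card with h2 | h2
    · exact ⟨T3.card, by omega, b3⟩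
    · exact ⟨T1.card, by omega, b1⟩

end Pool.Agent.Y546.FLT
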